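import Pool.Agent.W998.KG.Stm2
import Pool.Agent.W280.KG.CLO

set_option autoImplicit false

namespace Pool.Agent.W998.KG.CLP

open Pool.Agent.W998.KG
open Pool.Agent.Results.MP_633d19_co.SmallDegree
open Pool.Agent.Results.MP_633d19_co.SmallDegree.MGraph

open Pool.Agent.W280.KG (sg_inj sg_nx sg_surj)

theorem main : PartNTM → PartCLP := by
  intro hNTL V E _ _ G k Δ T μ g hk hT hcol hdeg hmult hg hcyc har l y f α β c hl hodd hst a hmiss i hi hLv
  obtain ⟨e, hye, hce, hout⟩ := hLv
  obtain ⟨j, hj, hja⟩ := hmiss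
  obtain ⟨z, hz⟩ := Sym2.mem_iff_exists.mp hye
  have hl0 : 0 < l := by omega
  have hji : j ≠ i := by
    intro h
    rw [h] at hja
    exact hja e hye hce
  have hzy : ∀ m < l, z ≠ y m := by
    intro m hm hzm
    have h1 : y m ∈ G.ends e := by rw [hz, ← hzm]; exact Sym2.mem_mk_right _ _
    have h2 := hout m hm h1
    rw [h2] at hzm
    apply G.loopless e
    rw [hz, hzm]
    exact Sym2.mk_isDiag_iff.mpr rfl
  let y' : ℕ → V := fun m => if m < l then y ((m + i + 1) % l) else z
  have hy1 : ∀ m, m < l → y' m = y ((m + i + 1) % l) := fun m hm => if_pos hm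
  have hy2 : y' l = z := if_neg (lt_irrefl l)
  have hlast : (l - 1 + i + 1) % l = i := by
    have e1 : l - 1 + i + 1 = i + l := by omega
    rw [e1, Nat.add_mod_right, Nat.mod_eq_of_lt hi]
  have hst' : G.State l y' (fun m => f ((m + i + 1) % l)) α β c := by
    refine ⟨hst.pp, ?_, ?_, ?_, ?_, ?_, hst.ne⟩
    · intro m hm n hn h
      rw [hy1 m hm, hy1 n hn] at h
      exact sg_inj hm hn (hst.inj _ (Nat.mod_lt _ hl0) _ (Nat.mod_lt _ hl0) h)
    · intro m hm
      rw [hy1 m hm, hy1 _ (nx_lt hm), sg_nx hm]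
      exact hst.ed _ (Nat.mod_lt _ hl0)
    · intro e'
      rw [hst.none_iff]
      constructor
      · rintro ⟨n, hn, rfl⟩
        obtain ⟨m, hm, hmn⟩ := sg_surj hi hn
        exact ⟨m, hm, by show f n = f ((m + i + 1) % l); rw [hmn]⟩
      · rintro ⟨m, hm, h⟩
        exact ⟨(m + i + 1) % l, Nat.mod_lt _ hl0, h⟩
    · intro m hm
      rw [hy1 m hm]
      exact hst.ma _ (Nat.mod_lt _ hl0)
    · intro m hm
      rw [hy1 m hm]
      exact hst.mb _ (Nat.mod_lt _ hl0)
  have hlol : Lol G l l y' (fun m => f ((m + i + 1) % l)) (fun _ => e) α β c := by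
    refine ⟨hst', ?_, ?_, ?_⟩
    · intro m hm n hn h
      rcases Nat.lt_or_eq_of_le hm with hm' | hm'
      · rcases Nat.lt_or_eq_of_le hn with hn' | hn'
        · exact hst'.inj m hm' n hn' h
        · exfalso
          rw [hn', hy2, hy1 m hm'] at h
          exact hzy _ (Nat.mod_lt _ hl0) h.symm
      · rcases Nat.lt_or_eq_of_le hn with hn' | hn'
        · exfalso
          rw [hm', hy2, hy1 n hn'] at h
          exact hzy _ (Nat.mod_lt _ hl0) h
        · rw [hm', hn']
    · intro m hm hlm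
      have hm' : m = l - 1 := by omega
      have e2 : m + 1 = l := by omega
      rw [e2, hy2, hy1 m hm, hm', hlast]
      exact hz
    · intro m hm hlm
      have hm' : m = l - 1 := by omega
      refine ⟨a, hce, ?_⟩
      obtain ⟨n, hn, hnj⟩ := sg_surj hi hj
      have hne : n ≠ l - 1 := by
        intro h
        rw [h, hlast] at hnj
        exact hji hnj.symm
      refine ⟨n, by omega, ?_⟩
      rw [hy1 n hn, hnj]
      exact hja
  exact hNTL hk hT hcol hdeg hmult hg hcyc har hl hodd le_rfl hlol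

end Pool.Agent.W998.KG.CLP
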