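import Pool.Agent.W998.KG.Stm

set_option autoImplicit false

namespace Pool.Agent.W998.KG

open Pool.Agent.Results.MP_633d19_co.SmallDegree
open Pool.Agent.Results.MP_633d19_co.SmallDegree.MGraph

variable {V E : Type}

/-- Tashkinov tree with vertices `y 0, ..., y n`; the edge `f i` joins `y (i+1)` to `y (pr i)`,
`pr i ≤ i`; `f 0` is the only uncoloured edge and the colour of `f i` is missing at an earlier
vertex. -/
structure TT (G : MGraph V E) {k : ℕ} (n : ℕ) (y : ℕ → V) (f : ℕ → E) (pr : ℕ → ℕ)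
    (c : E → Option (Fin k)) : Prop where
  pp : G.PP c
  inj : ∀ i ≤ n, ∀ j ≤ n, y i = y j → i = j
  le : ∀ i < n, pr i ≤ i
  ed : ∀ i < n, G.ends (f i) = s(y (pr i), y (i + 1))
  none_iff : ∀ e, c e = none ↔ e = f 0
  col : ∀ i < n, 1 ≤ i → ∃ a, c (f i) = some a ∧ ∃ j ≤ i, G.Miss c (y j) a

/-- Tashkinov's theorem. -/
def PartTAS : Prop :=
  ∀ {V E : Type} [Finite V] [Finite E] {G : MGraph V E} {k Δ : ℕ}, ¬ G.Colorable k →
    (∀ u, G.degree u ≤ Δ) → Δ + 1 ≤ k → ∀ {n : ℕ} {y : ℕ → V} {f : ℕ → E} {pr : ℕ → ℕ}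
    {c : E → Option (Fin k)}, TT G n y f pr c → 1 ≤ n →
    ∀ i j, i < j → j ≤ n → ∀ a, G.Miss c (y i) a → G.Miss c (y j) a → False

/-- Tree grown from the uncoloured odd cycle `y 0, ..., y (l-1)` of a `State`: vertices
`y 0, ..., y n`; for `l - 1 ≤ i < n` the edge `h i` joins `y (i+1)` to `y (pr i)`, `pr i ≤ i`,
its colour being missing at an earlier vertex. -/
structure Tr (G : MGraph V E) {k : ℕ} (l n : ℕ) (y : ℕ → V) (f h : ℕ → E) (pr : ℕ → ℕ)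
    (α β : Fin k) (c : E → Option (Fin k)) : Prop where
  st : G.State l y f α β c
  inj : ∀ i ≤ n, ∀ j ≤ n, y i = y j → i = j
  le : ∀ i < n, l ≤ i + 1 → pr i ≤ i
  ed : ∀ i < n, l ≤ i + 1 → G.ends (h i) = s(y (pr i), y (i + 1))
  col : ∀ i < n, l ≤ i + 1 → ∃ a, c (h i) = some a ∧ ∃ j ≤ i, G.Miss c (y j) a

/-- The vertex set `y 0, ..., y n` is elementary (in the sense of a `State`). -/
def Elem (G : MGraph V E) {k : ℕ} (l n : ℕ) (y : ℕ → V) (α β : Fin k)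
    (c : E → Option (Fin k)) : Prop :=
  (∀ i j, i < j → j ≤ n → ∀ a, a ≠ α → a ≠ β → G.Miss c (y i) a → G.Miss c (y j) a → False) ∧
    (∀ j, l ≤ j → j ≤ n → ¬ G.Miss c (y j) α ∧ ¬ G.Miss c (y j) β)

/-- The vertex set `y 0, ..., y n` is closed: an edge at it whose colour is missing at one of its
vertices stays inside. -/
def Clsd (G : MGraph V E) {k : ℕ} (n : ℕ) (y : ℕ → V) (c : E → Option (Fin k)) : Prop :=
  ∀ i ≤ n, ∀ e a, y i ∈ G.ends e → c e = some a → (∃ j ≤ n, G.Miss c (y j) a) →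
    ∃ i' ≤ n, G.ends e = s(y i, y i')

/-- Trees over the cycle are elementary. -/
def PartTRE : Prop :=
  ∀ {V E : Type} [Finite V] [Finite E] {G : MGraph V E} {k Δ : ℕ}, ¬ G.Colorable k →
    (∀ u, G.degree u ≤ Δ) → Δ + 1 ≤ k → ∀ {l n : ℕ} {y : ℕ → V} {f h : ℕ → E} {pr : ℕ → ℕ}
    {α β : Fin k} {c : E → Option (Fin k)}, 3 ≤ l → l % 2 = 1 → l ≤ n + 1 →
    Tr G l n y f h pr α β c → Elem G l n y α β c

/-- Every state extends to a closed tree with the same cycle. -/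
def PartCLS : Prop :=
  ∀ {V E : Type} [Finite V] [Finite E] {G : MGraph V E} {k : ℕ}
    {l : ℕ} {y : ℕ → V} {f : ℕ → E} {α β : Fin k} {c : E → Option (Fin k)}, 3 ≤ l →
    G.State l y f α β c →
    ∃ (n : ℕ) (y' : ℕ → V) (h : ℕ → E) (pr : ℕ → ℕ), l ≤ n + 1 ∧ (∀ i < l, y' i = y i) ∧
      Tr G l n y' f h pr α β c ∧ Clsd G n y' c

/-- Counting at the vertices of a closed elementary set. -/
def PartDEG : Prop :=
  ∀ {V E : Type} [Finite V] [Finite E] {G : MGraph V E} {k Δ T μ : ℕ}, k = Δ + T → 1 ≤ T →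
    (∀ u, G.degree u ≤ Δ) → (∀ u w, u ≠ w → G.mult u w ≤ μ) →
    ∀ {l n : ℕ} {y : ℕ → V} {f h : ℕ → E} {pr : ℕ → ℕ} {α β : Fin k}
    {c : E → Option (Fin k)}, 3 ≤ l → l % 2 = 1 → l ≤ n + 1 → Tr G l n y f h pr α β c →
    Elem G l n y α β c → Clsd G n y c →
    ∀ i ≤ n, ∃ A : Finset ℕ, (∀ j ∈ A, j ≤ n ∧ ∃ e, G.ends e = s(y i, y j)) ∧
      n * T + 2 ≤ A.card * μ

/-- A closed elementary set is odd. -/
def PartEVN : Prop :=
  ∀ {V E : Type} [Finite V] [Finite E] {G : MGraph V E} {k : ℕ}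
    {l n : ℕ} {y : ℕ → V} {f h : ℕ → E} {pr : ℕ → ℕ} {α β : Fin k}
    {c : E → Option (Fin k)}, 3 ≤ l → l % 2 = 1 → l ≤ n + 1 → Tr G l n y f h pr α β c →
    Elem G l n y α β c → Clsd G n y c → n % 2 = 0

/-- Andrasfai's bound: triangle-free with an odd cycle, so some vertex has few neighbours. -/
def PartAND : Prop :=
  ∀ {V E : Type} {G : MGraph V E} {l n : ℕ} {y : ℕ → V},
    ¬ G.HasCycle 3 → (∀ i ≤ n, ∀ j ≤ n, y i = y j → i = j) → 3 ≤ l → l % 2 = 1 → l ≤ n + 1 →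
    (∀ i < l, ∃ e, G.ends e = s(y i, y (nx l i))) →
    ∃ i ≤ n, ∀ A : Finset ℕ, (∀ j ∈ A, j ≤ n ∧ ∃ e, G.ends e = s(y i, y j)) →
      5 * A.card ≤ 2 * (n + 1)

/-- Balls of radius two. -/
def PartMOR : Prop :=
  ∀ {V E : Type} {G : MGraph V E} {n d : ℕ} {y : ℕ → V},
    (∀ i ≤ n, ∀ j ≤ n, y i = y j → i = j) →
    (∀ i ≤ n, ∃ A : Finset ℕ, (∀ j ∈ A, j ≤ n ∧ ∃ e, G.ends e = s(y i, y j)) ∧ d ≤ A.card) →
    ((∀ l, 3 ≤ l → G.HasCycle l → 5 ≤ l) → d * d ≤ n) ∧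
    (1 ≤ d → (∀ l, 3 ≤ l → G.HasCycle l → 6 ≤ l) → 2 * (d * d + 1) ≤ n + 1 + 2 * d)

end Pool.Agent.W998.KG
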