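import Pool.Agent.W998.KG.CHE
import Pool.Agent.W998.KG.CLP
import Pool.Agent.W998.KG.Stm3
import Pool.Agent.W880.KG.KIE
import Pool.Agent.W796.KG.LOL
import Pool.Agent.W571.KG.CNT
import Pool.Agent.W571.KG.GAP
import Pool.Agent.W3.KG.GAQ
import Pool.Agent.W29.KG.PAR
import Pool.Agent.W460.KG.ODD
import Pool.Agent.W191.KG.SWP
import Pool.Agent.W675.KG.EXI
import Pool.Agent.W648.KG.INN
import Pool.Agent.W7.KG.SUM
import Pool.Agent.W52.KG.STA
import Pool.Agent.W334.KG.GAT

set_option autoImplicit false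

namespace Pool.Agent.W998.KG

open Pool.Agent.Results.MP_633d19_co.SmallDegree
open Pool.Agent.Results.MP_633d19_co.SmallDegree.MGraph

/-- In every graph of the class which is not `Δ + T`-colourable, the cycle of every state is
closed and has no chords. -/
def ClosedReg (Δ T μ g : ℕ) : Prop :=
  ∀ {V E : Type} [Finite V] [Finite E] {G : MGraph V E}, ¬ G.Colorable (Δ + T) →
    (∀ u, G.degree u ≤ Δ) → (∀ u w, u ≠ w → G.mult u w ≤ μ) →
    (∀ l, 3 ≤ l → G.HasCycle l → g ≤ l) →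
    ∀ {l : ℕ} {y : ℕ → V} {f : ℕ → E} {α β : Fin (Δ + T)} {c : E → Option (Fin (Δ + T))},
    3 ≤ l → l % 2 = 1 → G.State l y f α β c →
    (∀ a : Fin (Δ + T), (∃ j < l, G.Miss c (y j) a) → ∀ i < l, ¬ Lv G l y c a i) ∧
    (∀ i < l, ∀ j < l, (∃ e, G.ends e = s(y i, y j)) → j = nx l i ∨ i = nx l j)

/-- Above `2μ` the bound is not attained. -/
theorem colorable_above {Δ T μ g : ℕ} (hreg : ClosedReg Δ T μ g) (hT : 1 ≤ T) (hΔ : 2 * μ < Δ)
    (hμg : μ ≤ (g / 2) * (T + 1)) (n : ℕ) :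
    ∀ {V : Type} (E : Type) [Finite V] [Finite E] (G : MGraph V E), Nat.card E = n →
      (∀ u, G.degree u ≤ Δ) → (∀ u w, u ≠ w → G.mult u w ≤ μ) →
      (∀ l, 3 ≤ l → G.HasCycle l → g ≤ l) → G.Colorable (Δ + T) := by
  classical
  have hINN : PartINN := W648.KG.INN.main (W675.KG.EXI.main W29.KG.main W460.KG.ODD.main
    W191.KG.SWP.main)
  induction n with
  | zero =>
    intro V E _ _ G hE _ _ _
    have : IsEmpty E := by
      rcases Nat.card_eq_zero.mp hE with h | h
      · exact h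
      · exact absurd ‹Finite E› h.not_finite
    exact ⟨fun e => (this.false e).elim, fun e => (this.false e).elim⟩
  | succ n ih =>
    intro V E _ _ G hE hdeg hmul hcyc
    by_contra hG
    obtain ⟨e0⟩ : Nonempty E := by
      have : 0 < Nat.card E := by omega
      exact (Nat.card_pos_iff.mp this).1
    have hcard : Nat.card {e : E // e ≠ e0} = n := by
      have := Fintype.ofFinite E
      rw [Nat.card_eq_fintype_card] at hE ⊢
      have h1 := Fintype.card_subtype_compl (fun e : E => e = e0)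
      simp only [Fintype.card_subtype_eq] at h1
      rw [hE] at h1
      simpa using h1
    have hdel : (G.del e0).Colorable (Δ + T) := by
      refine ih {e : E // e ≠ e0} (G.del e0) hcard
        (fun u => (G.del_degree e0 u).trans (hdeg u)) ?_ ?_
      · intro u w huw
        refine le_trans ?_ (hmul u w huw)
        unfold mult
        apply Nat.card_le_card_of_injective
          (fun x : {e : {e : E // e ≠ e0} // (G.del e0).ends e = s(u, w)} =>
            (⟨x.1.1, x.2⟩ : {e : E // G.ends e = s(u, w)}))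
        intro x y hxy
        have := congrArg Subtype.val hxy
        exact Subtype.ext (Subtype.ext this)
      · intro l h1 ⟨v, h3, h4⟩
        refine hcyc l h1 ⟨v, h3, fun i hi => ?_⟩
        obtain ⟨e, he⟩ := h4 i hi
        exact ⟨e.1, he⟩
    obtain ⟨l, y, f, α, β, c, hl, hodd, H⟩ :=
      W52.KG.STA.main G (k := Δ + T) (Δ := Δ) (by omega) hdeg hG e0 hdel
    have hcl : ∀ c : E → Option (Fin (Δ + T)), G.State l y f α β c → ∀ a : Fin (Δ + T),
        (∃ j < l, G.Miss c (y j) a) → ∀ i < l, ¬ Lv G l y c a i := fun c' H' =>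
      (hreg hG hdeg hmul hcyc hl hodd H').1
    have hex : ∀ c : E → Option (Fin (Δ + T)), G.State l y f α β c →
        ∀ i < l, (G.ms c α β (y i)).Nonempty := by
      intro c' H' i hi
      have := H'.card_ms hl hdeg hi
      rw [← Finset.card_pos]
      omega
    have h1 := W7.KG.main hl H hmul (hreg hG hdeg hmul hcyc hl hodd H).2
      (fun a h2 h3 => hINN hl hodd hG hcl hex H a h2 h3)
    have hlg : g ≤ l := hcyc l hl ⟨y, H.inj, fun i hi => ⟨f i, by rw [mod_eq_nx hi, H.ed i hi]⟩⟩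
    obtain ⟨q, hq⟩ : ∃ q, l = 2 * q + 1 := ⟨l / 2, by omega⟩
    have hqg : g / 2 ≤ q := by omega
    subst hq
    have h2 : (g / 2) * (T + 1) ≤ q * (T + 1) := Nat.mul_le_mul_right _ hqg
    have hΔT : 2 ≤ Δ + T := by omega
    obtain ⟨K, hK⟩ : ∃ K, Δ + T = K + 2 := ⟨Δ + T - 2, by omega⟩
    rw [hK] at h1
    simp only [Nat.add_sub_cancel] at h1
    have h3 : 2 * μ + T ≤ K + 1 := by omega
    have h4 : (2 * μ + T) * (2 * q) ≤ (K + 1) * (2 * q) := Nat.mul_le_mul_right _ h3
    nlinarith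

/-- The first region, by Kierstead paths. -/
theorem closedReg_cond {Δ T μ g : ℕ} (hT : 1 ≤ T) (hg : 4 ≤ g) (h : Cond g μ T) :
    ClosedReg Δ T μ g := by
  have hLOL : PartLOL := W796.KG.LOL.main W880.KG.main
  have hNTM : PartNTM := NTM.main hLOL W571.KG.CNT.main W571.KG.GAP.main W3.KG.GAQ.main
    W334.KG.main
  have hCLP : PartCLP := CLP.main hNTM
  have hCHE : PartCHE := CHE.main hLOL W571.KG.CNT.main W571.KG.GAP.main hCLP
  intro V E _ _ G hG hdeg hmul hcyc l y f α β c hl hodd H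
  exact ⟨hCLP rfl hT hG hdeg hmul hg hcyc h hl hodd H,
    hCHE rfl hT hG hdeg hmul hg hcyc h hl hodd H⟩

/-- From a region to the statement. -/
theorem final_of_reg (Δ μ g T : ℕ) (hg : 4 ≤ g) (hT : 1 ≤ T) (hμΔ : μ ≤ Δ)
    (ht : ⌈(μ : ℚ) / ((g / 2 : ℕ) : ℚ)⌉₊ = T + 1) (ht1 : μ ≤ (g / 2) * (T + 1))
    (ht2 : (g / 2) * T < μ)
    (hreg : ClosedReg Δ T μ g) :
    IsGreatest (chromSet Δ μ g) (steffen Δ μ g) ↔
      2 * (g / 2) * (⌈(μ : ℚ) / ((g / 2 : ℕ) : ℚ)⌉₊ - 1) + 2 ≤ Δ ∧ Δ ≤ 2 * μ := by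
  have hμ2 : 2 ≤ μ := by
    have h1 : 1 ≤ (g / 2) * T := Nat.mul_pos (by omega) (by omega)
    omega
  constructor
  · intro hgr
    have hle : Δ ≤ 2 * μ := by
      by_contra hcon
      push Not at hcon
      obtain ⟨V, E, _, _, G, ⟨⟨h1, -⟩, ⟨h2, -⟩, h3⟩, h4⟩ := hgr.1
      have h5 : G.Colorable (Δ + T) :=
        colorable_above hreg hT hcon ht1 _ E G rfl h1 h2 (fun l hl hc => h3.2 ⟨hl, hc⟩)
      have h6 := h4.2 h5
      unfold steffen at h6
      rw [ht] at h6
      omega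
    exact ⟨((Pool.Agent.Results.MP_633d19_co.SmallDegree.result Δ μ g (by omega) (by omega) hμΔ
      (by omega)).1 hle).mp hgr, hle⟩
  · rintro ⟨h1, h2⟩
    exact ((Pool.Agent.Results.MP_633d19_co.SmallDegree.result Δ μ g (by omega) (by omega) hμΔ
      (by omega)).1 h2).mpr h1

end Pool.Agent.W998.KG
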