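import Pool.Agent.W998.KG.Stm2
import Pool.Agent.W998.KG.NTM
import Pool.Agent.W280.KG.CLO

set_option autoImplicit false

namespace Pool.Agent.W998.KG.CHE

open Pool.Agent.W998.KG
open Pool.Agent.Results.MP_633d19_co.SmallDegree
open Pool.Agent.Results.MP_633d19_co.SmallDegree.MGraph

/-- The two cycles cut off by a chord. -/
theorem chord_cycles {V E : Type} {G : MGraph V E} {l g : ℕ} {y : ℕ → V} (hl : 3 ≤ l)
    (hgir : ∀ l, 3 ≤ l → G.HasCycle l → g ≤ l)
    (inj : ∀ i < l, ∀ j < l, y i = y j → i = j)
    (ed : ∀ i < l, ∃ e, G.ends e = s(y i, y (nx l i))) {i j : ℕ} (hij : i + 1 < j) (hj : j < l)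
    (hne : ¬ (i = 0 ∧ j + 1 = l)) (hadj : ∃ e, G.ends e = s(y i, y j)) : 2 * g ≤ l + 2 := by
  have h1 : g ≤ j - i + 1 := by
    apply hgir (j - i + 1) (by omega)
    refine ⟨fun m => y (i + m), ?_, ?_⟩
    · intro a ha b hb hab
      have := inj _ (by omega) _ (by omega) hab
      omega
    · intro m hm
      rcases Nat.lt_or_ge m (j - i) with h | h
      · rw [Nat.mod_eq_of_lt (by omega)]
        obtain ⟨e, he⟩ := ed (i + m) (by omega)
        refine ⟨e, ?_⟩
        have : nx l (i + m) = i + (m + 1) := by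
          unfold nx
          rw [if_neg (by omega)]
          omega
        rw [he, this]
      · have : m = j - i := by omega
        subst this
        obtain ⟨e, he⟩ := hadj
        refine ⟨e, ?_⟩
        rw [Nat.mod_self, he]
        have e1 : i + (j - i) = j := by omega
        dsimp only
        rw [e1, Nat.add_zero, Sym2.eq_swap]
  have h2 : g ≤ l - (j - i) + 1 := by
    apply hgir (l - (j - i) + 1) (by omega)
    refine ⟨fun m => y ((j + m) % l), ?_, ?_⟩
    · intro a ha b hb hab
      have h3 := inj _ (Nat.mod_lt _ (by omega)) _ (Nat.mod_lt _ (by omega)) hab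
      have h4 : (j + a) ≡ (j + b) [MOD l] := h3
      have h5 := Nat.ModEq.add_left_cancel' j h4
      have h6 : a % l = b % l := h5
      rcases Nat.lt_or_ge a l with h7 | h7
      · rcases Nat.lt_or_ge b l with h8 | h8
        · rwa [Nat.mod_eq_of_lt h7, Nat.mod_eq_of_lt h8] at h6
        · omega
      · omega
    · intro m hm
      rcases Nat.lt_or_ge m (l - (j - i)) with h | h
      · rw [Nat.mod_eq_of_lt (by omega)]
        obtain ⟨e, he⟩ := ed ((j + m) % l) (Nat.mod_lt _ (by omega))
        refine ⟨e, ?_⟩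
        rw [he, ← mod_eq_nx (Nat.mod_lt _ (by omega)), Nat.mod_add_mod]
        rfl
      · have : m = l - (j - i) := by omega
        subst this
        obtain ⟨e, he⟩ := hadj
        refine ⟨e, ?_⟩
        rw [Nat.mod_self, he]
        have e1 : j + (l - (j - i)) = i + l := by omega
        have e2 : (j + 0) % l = j := by rw [Nat.add_zero, Nat.mod_eq_of_lt hj]
        dsimp only
        rw [e1, e2, Nat.add_mod_right, Nat.mod_eq_of_lt (by omega)]
  omega

theorem main : PartLOL → PartCNT → PartGAP → PartCLP → PartCHE := by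
  intro hLOL hCNT hGAP hCLP V E _ _ G k Δ T μ g hk hT hcol hdeg hmult hg hgir hμ l y f α β c hl
    hodd H
  have hed : ∀ i < l, ∃ e, G.ends e = s(y i, y (nx l i)) := fun i hi => ⟨f i, H.ed i hi⟩
  -- the count
  have hcount : (l - 1) * T + 2 ≤ 2 * μ := by
    have hinj : ∀ i ≤ l - 1, ∀ j ≤ l - 1, y i = y j → i = j := fun i hi j hj h =>
      H.inj i (by omega) j (by omega) h
    have hL : Lol G l (l - 1) y f f α β c :=
      ⟨H, hinj, fun i hi h => by omega, fun i hi h => by omega⟩
    have hLL := hLOL hcol hdeg (by omega) hl hodd (by omega) hL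
    obtain ⟨A, hA, hAc⟩ := hCNT hk hT hdeg hmult hl hodd (by omega) hL hLL (by
      intro e a he hca ⟨j, hj, hja⟩
      have hnl := hCLP hk hT hcol hdeg hmult hg hgir hμ hl hodd H a ⟨j, by omega, hja⟩ (l - 1)
        (by omega)
      unfold Lv at hnl
      push Not at hnl
      obtain ⟨j', hj', hj'e, hne⟩ := hnl e he hca
      have hyne : y j' ≠ y (l - 1) := fun h => hne (H.inj _ hj' _ (by omega) h)
      refine ⟨j', by omega, ?_⟩
      exact (Sym2.mem_and_mem_iff (Ne.symm hyne)).mp ⟨he, hj'e⟩)
    have hpath : ∀ i < l - 1, ∃ e, G.ends e = s(y i, y (i + 1)) := by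
      intro i hi
      obtain ⟨e, he⟩ := hed i (by omega)
      have h4 : nx l i = i + 1 := by
        unfold nx
        rw [if_neg (by omega)]
      rw [h4] at he
      exact ⟨e, he⟩
    have hne : A.Nonempty := by
      rw [Finset.nonempty_iff_ne_empty]
      rintro rfl
      rw [Finset.card_empty] at hAc
      omega
    have hgap := hGAP (by omega) hgir hinj hpath A hA hne
    rcases Nat.lt_or_ge A.card 3 with hlt | hge
    · have h1 : A.card * μ ≤ 2 * μ := Nat.mul_le_mul_right _ (by omega)
      omega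
    · exfalso
      refine Pool.Agent.W998.KG.NTM.arith3 hg hT hge hgap (fun h2 => ?_) hAc hμ
      have h3 : 2 * (g - 2) ≤ (A.card - 1) * (g - 2) := Nat.mul_le_mul_right _ (by omega)
      omega
  have key : ∀ i j, i < j → j < l → (∃ e, G.ends e = s(y i, y j)) →
      j = nx l i ∨ i = nx l j := by
    intro i j hij hj hadj
    by_contra hcon
    push Not at hcon
    obtain ⟨h1, h2⟩ := hcon
    have h3 : i + 1 < j := by
      by_contra h
      apply h1
      unfold nx
      rw [if_neg (by omega)]
      omega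
    have h4 : ¬ (i = 0 ∧ j + 1 = l) := by
      rintro ⟨h5, h6⟩
      apply h2
      unfold nx
      rw [if_pos h6, h5]
    have h5 := chord_cycles hl hgir H.inj hed h3 hj h4 hadj
    rcases hμ with hμ | ⟨h6, hμ, -⟩
    · have h7 : (2 * g - 3) * T ≤ (l - 1) * T := Nat.mul_le_mul_right _ (by omega)
      omega
    · have h7 : (2 * g - 2) * T ≤ (l - 1) * T := Nat.mul_le_mul_right _ (by omega)
      omega
  intro i hi j hj hadj
  rcases Nat.lt_trichotomy i j with h | h | h
  · exact key i j h hj hadj
  · exfalso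
    subst h
    obtain ⟨e, he⟩ := hadj
    exact G.loopless e (by rw [he]; exact Sym2.mk_isDiag_iff.mpr rfl)
  · obtain ⟨e, he⟩ := hadj
    rcases key j i h hi ⟨e, by rw [he, Sym2.eq_swap]⟩ with h1 | h1
    · exact Or.inr h1
    · exact Or.inl h1

end Pool.Agent.W998.KG.CHE
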