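import Pool.Agent.W998.KG.Base

set_option autoImplicit false

namespace Pool.Agent.W998.KG

open Pool.Agent.Results.MP_633d19_co.SmallDegree
open Pool.Agent.Results.MP_633d19_co.SmallDegree.MGraph

theorem size4 {n T μ d : ℕ} (hT : 10 ≤ T) (hμ : μ ≤ 2 * (T + 1)) (he : n % 2 = 0)
    (h1 : n * T + 2 ≤ d * μ) (h2 : 5 * d ≤ 2 * (n + 1)) : n ≤ 4 := by
  by_contra hcon
  have hn : 6 ≤ n := by omega
  have h3 : d * μ ≤ d * (2 * (T + 1)) := Nat.mul_le_mul_left _ hμ
  have h4 : 5 * d * (2 * (T + 1)) ≤ 2 * (n + 1) * (2 * (T + 1)) := Nat.mul_le_mul_right _ h2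
  obtain ⟨n', rfl⟩ : ∃ n', n = n' + 6 := ⟨n - 6, by omega⟩
  obtain ⟨T', rfl⟩ : ∃ T', T = T' + 10 := ⟨T - 10, by omega⟩
  have h5 : 0 ≤ n' * T' := Nat.zero_le _
  nlinarith

theorem size5 {n T μ d : ℕ} (hT : 1 ≤ T) (hμ : μ ≤ 3 * T) (he : n % 2 = 0)
    (h1 : n * T + 2 ≤ d * μ) (h2 : d * d ≤ n) : n ≤ 4 := by
  have h3 : d * μ ≤ d * (3 * T) := Nat.mul_le_mul_left _ hμ
  have h4 : d * d * T ≤ n * T := Nat.mul_le_mul_right _ h2
  have h5 : d < 3 := by
    by_contra hcon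
    have h6 : 3 * d ≤ d * d := Nat.mul_le_mul_right _ (by omega)
    have h7 : 3 * d * T ≤ d * d * T := Nat.mul_le_mul_right _ h6
    nlinarith
  have h6 : d * (3 * T) ≤ 2 * (3 * T) := Nat.mul_le_mul_right _ (by omega)
  have h7 : n * T < 6 * T := by nlinarith
  have h8 : n < 6 := Nat.lt_of_mul_lt_mul_right h7
  omega

theorem size6 {n T μ d : ℕ} (hT : 1 ≤ T) (hμ : μ ≤ 4 * T) (he : n % 2 = 0)
    (h1 : n * T + 2 ≤ d * μ) (h2 : 2 * (d * d + 1) ≤ n + 1 + 2 * d) : n ≤ 6 := by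
  have h3 : d * μ ≤ d * (4 * T) := Nat.mul_le_mul_left _ hμ
  have h5 : d < 3 := by
    by_contra hcon
    obtain ⟨d', rfl⟩ : ∃ d', d = d' + 3 := ⟨d - 3, by omega⟩
    have h6 : 4 * (d' + 3) ≤ n := by nlinarith
    have h7 : 4 * (d' + 3) * T ≤ n * T := Nat.mul_le_mul_right _ h6
    nlinarith
  have h6 : d * (4 * T) ≤ 2 * (4 * T) := Nat.mul_le_mul_right _ (by omega)
  have h7 : n * T < 8 * T := by nlinarith
  have h8 : n < 8 := Nat.lt_of_mul_lt_mul_right h7
  omega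

/-- The second region. -/
def Reg2 (g μ T : ℕ) : Prop :=
  (g = 4 ∧ 10 ≤ T ∧ μ ≤ 2 * (T + 1)) ∨ (5 ≤ g ∧ g ≤ 7 ∧ 1 ≤ T ∧ μ ≤ (g / 2 + 1) * T)

theorem size_le (hDEG : PartDEG) (hEVN : PartEVN) (hAND : PartAND) (hMOR : PartMOR)
    {Δ T μ g : ℕ} (hreg : Reg2 g μ T) {V E : Type} [Finite V] [Finite E] {G : MGraph V E}
    (hdeg : ∀ u, G.degree u ≤ Δ) (hmul : ∀ u w, u ≠ w → G.mult u w ≤ μ)
    (hgir : ∀ l, 3 ≤ l → G.HasCycle l → g ≤ l)
    {l n : ℕ} {y : ℕ → V} {f h : ℕ → E} {pr : ℕ → ℕ} {α β : Fin (Δ + T)}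
    {c : E → Option (Fin (Δ + T))} (hl : 3 ≤ l) (hodd : l % 2 = 1) (hln : l ≤ n + 1)
    (H : Tr G l n y f h pr α β c) (hel : Elem G l n y α β c) (hcl : Clsd G n y c) :
    n ≤ 2 * (g / 2) := by
  have hT : 1 ≤ T := by
    rcases hreg with ⟨-, h1, -⟩ | ⟨-, -, h1, -⟩ <;> omega
  have he := hEVN hl hodd hln H hel hcl
  have hd := hDEG (k := Δ + T) rfl hT hdeg hmul hl hodd hln H hel hcl
  rcases hreg with ⟨rfl, h1, h2⟩ | ⟨h5, h7, -, h2⟩
  · obtain ⟨i, hi, hA⟩ := hAND (G := G) (l := l) (n := n) (y := y)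
      (fun hc => by have := hgir 3 le_rfl hc; omega) H.inj hl hodd hln
      (fun i hi => ⟨f i, H.st.ed i hi⟩)
    obtain ⟨A, hA1, hA2⟩ := hd i hi
    have := size4 h1 h2 he hA2 (hA A hA1)
    omega
  · -- an index with the fewest neighbours
    choose! A hA1 hA2 using hd
    obtain ⟨i0, hi0, hmin⟩ : ∃ i0 ≤ n, ∀ i ≤ n, (A i0).card ≤ (A i).card := by
      obtain ⟨i0, hi0, hm⟩ := Finset.exists_min_image (Finset.range (n + 1))
        (fun i => (A i).card) ⟨0, by simp⟩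
      exact ⟨i0, by rw [Finset.mem_range] at hi0; omega,
        fun i hi => hm i (by rw [Finset.mem_range]; omega)⟩
    have hM := hMOR (G := G) (n := n) (d := (A i0).card) (y := y) H.inj
      (fun i hi => ⟨A i, hA1 i hi, hmin i hi⟩)
    have hpos : 1 ≤ (A i0).card := by
      by_contra hcon
      have h0 : (A i0).card = 0 := by omega
      have := hA2 i0 hi0
      rw [h0] at this
      omega
    rcases Nat.lt_or_ge g 6 with h6 | h6
    · have hg5 : g = 5 := by omega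
      subst hg5
      have h8 := size5 hT (by simpa using h2) he (hA2 i0 hi0)
        (hM.1 (fun l hl hc => hgir l hl hc))
      omega
    · have hg3 : g / 2 = 3 := by omega
      rw [hg3] at h2 ⊢
      have h8 := size6 hT (by simpa using h2) he (hA2 i0 hi0)
        (hM.2 hpos (fun l hl hc => h6.trans (hgir l hl hc)))
      omega

/-- The second region, by Tashkinov trees. -/
theorem closedReg_two (hTRE : PartTRE) (hCLS : PartCLS) (hDEG : PartDEG) (hEVN : PartEVN)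
    (hAND : PartAND) (hMOR : PartMOR) {Δ T μ g : ℕ} (hreg : Reg2 g μ T) :
    ClosedReg Δ T μ g := by
  have hT : 1 ≤ T := by
    rcases hreg with ⟨-, h1, -⟩ | ⟨-, -, h1, -⟩ <;> omega
  have hg4 : 4 ≤ g := by
    rcases hreg with ⟨h1, -, -⟩ | ⟨h1, -, -, -⟩ <;> omega
  intro V E _ _ G hG hdeg hmul hgir l y f α β c hl hodd H
  obtain ⟨n, y', h, pr, hln, hy', hTr, hcl⟩ := hCLS hl H
  have hel := hTRE hG hdeg (by omega) hl hodd hln hTr
  have hsz := size_le hDEG hEVN hAND hMOR hreg hdeg hmul hgir hl hodd hln hTr hel hcl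
  have hlg : g ≤ l := hgir l hl ⟨y, H.inj, fun i hi => ⟨f i, by rw [mod_eq_nx hi, H.ed i hi]⟩⟩
  have hln' : l = n + 1 := by omega
  refine ⟨?_, ?_⟩
  · rintro a ⟨j, hj, hja⟩ i hi ⟨e, he, hca, hout⟩
    obtain ⟨i', hi', hends⟩ := hcl i (by omega) e a (by rw [hy' i hi]; exact he) hca
      ⟨j, by omega, by rw [hy' j hj]; exact hja⟩
    rw [hy' i hi, hy' i' (by omega)] at hends
    have h1 := hout i' (by omega) (by rw [hends]; exact Sym2.mem_mk_right _ _)
    rw [h1] at hends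
    exact G.loopless e (by rw [hends]; exact Sym2.mk_isDiag_iff.mpr rfl)
  · have hed : ∀ i < l, ∃ e, G.ends e = s(y i, y (nx l i)) := fun i hi => ⟨f i, H.ed i hi⟩
    have key : ∀ i j, i < j → j < l → (∃ e, G.ends e = s(y i, y j)) →
        j = nx l i ∨ i = nx l j := by
      intro i j hij hj hadj
      by_contra hcon
      push Not at hcon
      obtain ⟨h1, h2⟩ := hcon
      have h3 : i + 1 < j := by
        by_contra h
        apply h1
        unfold nx
        rw [if_neg (by omega)]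
        omega
      have h4 : ¬ (i = 0 ∧ j + 1 = l) := by
        rintro ⟨h5, h6⟩
        apply h2
        unfold nx
        rw [if_pos h6, h5]
      have h5 := CHE.chord_cycles hl hgir H.inj hed h3 hj h4 hadj
      omega
    intro i hi j hj hadj
    rcases Nat.lt_trichotomy i j with h | h | h
    · exact key i j h hj hadj
    · exfalso
      subst h
      obtain ⟨e, he⟩ := hadj
      exact G.loopless e (by rw [he]; exact Sym2.mk_isDiag_iff.mpr rfl)
    · obtain ⟨e, he⟩ := hadj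
      rcases key j i h hi ⟨e, by rw [he, Sym2.eq_swap]⟩ with h1 | h1
      · exact Or.inr h1
      · exact Or.inl h1

end Pool.Agent.W998.KG
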