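import Pool.Agent.W998.KG.Reg

set_option autoImplicit false

namespace Pool.Agent.W998.KG

open Pool.Agent.Results.MP_633d19_co.SmallDegree
open Pool.Agent.Results.MP_633d19_co.SmallDegree.MGraph

theorem size4' {n T μ d : ℕ}
    (hμ : (3 ≤ T ∧ μ = 2 * T + 1) ∨ (6 ≤ T ∧ μ = 2 * T + 2)) (he : n % 2 = 0)
    (h1 : n * T + 2 ≤ d * μ) (h2 : 5 * d ≤ 2 * (n + 1)) : n ≤ 4 := by
  by_contra hcon
  have hn : 6 ≤ n := by omega
  rcases hμ with ⟨hT, rfl⟩ | ⟨hT, rfl⟩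
  · have h4 : 5 * d * (2 * T + 1) ≤ 2 * (n + 1) * (2 * T + 1) := Nat.mul_le_mul_right _ h2
    obtain ⟨n', rfl⟩ : ∃ n', n = n' + 6 := ⟨n - 6, by omega⟩
    obtain ⟨T', rfl⟩ : ∃ T', T = T' + 3 := ⟨T - 3, by omega⟩
    have h5 : 0 ≤ n' * T' := Nat.zero_le _
    nlinarith
  · rcases Nat.lt_or_ge n 10 with h10 | h10
    · rcases (by omega : n = 6 ∨ n = 8) with rfl | rfl
      · have hd : d ≤ 2 := by omega
        have h3 : d * (2 * T + 2) ≤ 2 * (2 * T + 2) := Nat.mul_le_mul_right _ hd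
        omega
      · have hd : d ≤ 3 := by omega
        have h3 : d * (2 * T + 2) ≤ 3 * (2 * T + 2) := Nat.mul_le_mul_right _ hd
        omega
    · have h4 : 5 * d * (2 * T + 2) ≤ 2 * (n + 1) * (2 * T + 2) := Nat.mul_le_mul_right _ h2
      obtain ⟨n', rfl⟩ : ∃ n', n = n' + 10 := ⟨n - 10, by omega⟩
      obtain ⟨T', rfl⟩ : ∃ T', T = T' + 6 := ⟨T - 6, by omega⟩
      have h5 : 0 ≤ n' * T' := Nat.zero_le _
      nlinarith

/-- The second region. -/
def Reg3 (g μ T : ℕ) : Prop :=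
  (g = 4 ∧ ((3 ≤ T ∧ μ = 2 * T + 1) ∨ (6 ≤ T ∧ μ = 2 * T + 2))) ∨
    (5 ≤ g ∧ g ≤ 7 ∧ 1 ≤ T ∧ μ ≤ (g / 2 + 1) * T)

theorem size_le' (hDEG : PartDEG) (hEVN : PartEVN) (hAND : PartAND) (hMOR : PartMOR)
    {Δ T μ g : ℕ} (hreg : Reg3 g μ T) {V E : Type} [Finite V] [Finite E] {G : MGraph V E}
    (hdeg : ∀ u, G.degree u ≤ Δ) (hmul : ∀ u w, u ≠ w → G.mult u w ≤ μ)
    (hgir : ∀ l, 3 ≤ l → G.HasCycle l → g ≤ l)
    {l n : ℕ} {y : ℕ → V} {f h : ℕ → E} {pr : ℕ → ℕ} {α β : Fin (Δ + T)}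
    {c : E → Option (Fin (Δ + T))} (hl : 3 ≤ l) (hodd : l % 2 = 1) (hln : l ≤ n + 1)
    (H : Tr G l n y f h pr α β c) (hel : Elem G l n y α β c) (hcl : Clsd G n y c) :
    n ≤ 2 * (g / 2) := by
  rcases hreg with ⟨rfl, h1⟩ | hr
  · have hT : 1 ≤ T := by omega
    have he := hEVN hl hodd hln H hel hcl
    have hd := hDEG (k := Δ + T) rfl hT hdeg hmul hl hodd hln H hel hcl
    obtain ⟨i, hi, hA⟩ := hAND (G := G) (l := l) (n := n) (y := y)
      (fun hc => by have := hgir 3 le_rfl hc; omega) H.inj hl hodd hln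
      (fun i hi => ⟨f i, H.st.ed i hi⟩)
    obtain ⟨A, hA1, hA2⟩ := hd i hi
    have := size4' h1 he hA2 (hA A hA1)
    omega
  · exact size_le hDEG hEVN hAND hMOR (Or.inr hr) hdeg hmul hgir hl hodd hln H hel hcl

/-- All closed trees are the short cycle itself. -/
def SizeOK (Δ T μ g : ℕ) : Prop :=
  ∀ (V E : Type) [Finite V] [Finite E] (G : MGraph V E),
    (∀ u, G.degree u ≤ Δ) → (∀ u w, u ≠ w → G.mult u w ≤ μ) →
    (∀ l, 3 ≤ l → G.HasCycle l → g ≤ l) →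
    ∀ (l n : ℕ) (y : ℕ → V) (f h : ℕ → E) (pr : ℕ → ℕ) (α β : Fin (Δ + T))
    (c : E → Option (Fin (Δ + T))), 3 ≤ l → l % 2 = 1 → l ≤ n + 1 →
    Tr G l n y f h pr α β c → Elem G l n y α β c → Clsd G n y c →
    l = n + 1 ∧ l + 2 < 2 * g

/-- If all closed trees are the cycle itself, cycles are closed and chordless. -/
theorem closedReg_of_size (hTRE : PartTRE) (hCLS : PartCLS) {Δ T μ g : ℕ} (hT : 1 ≤ T)
    (hsize : SizeOK Δ T μ g) :
    ClosedReg Δ T μ g := by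
  intro V E _ _ G hG hdeg hmul hgir l y f α β c hl hodd H
  obtain ⟨n, y', h, pr, hln, hy', hTr, hcl⟩ := hCLS hl H
  have hel := hTRE hG hdeg (by omega) hl hodd hln hTr
  obtain ⟨hln', hsz⟩ := hsize V E G hdeg hmul hgir l n y' f h pr α β c hl hodd hln hTr hel hcl
  refine ⟨?_, ?_⟩
  · rintro a ⟨j, hj, hja⟩ i hi ⟨e, he, hca, hout⟩
    obtain ⟨i', hi', hends⟩ := hcl i (by omega) e a (by rw [hy' i hi]; exact he) hca
      ⟨j, by omega, by rw [hy' j hj]; exact hja⟩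
    rw [hy' i hi, hy' i' (by omega)] at hends
    have h1 := hout i' (by omega) (by rw [hends]; exact Sym2.mem_mk_right _ _)
    rw [h1] at hends
    exact G.loopless e (by rw [hends]; exact Sym2.mk_isDiag_iff.mpr rfl)
  · have hed : ∀ i < l, ∃ e, G.ends e = s(y i, y (nx l i)) := fun i hi => ⟨f i, H.ed i hi⟩
    have key : ∀ i j, i < j → j < l → (∃ e, G.ends e = s(y i, y j)) →
        j = nx l i ∨ i = nx l j := by
      intro i j hij hj hadj
      by_contra hcon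
      push Not at hcon
      obtain ⟨h1, h2⟩ := hcon
      have h3 : i + 1 < j := by
        by_contra h
        apply h1
        unfold nx
        rw [if_neg (by omega)]
        omega
      have h4 : ¬ (i = 0 ∧ j + 1 = l) := by
        rintro ⟨h5, h6⟩
        apply h2
        unfold nx
        rw [if_pos h6, h5]
      have h5 := CHE.chord_cycles hl hgir H.inj hed h3 hj h4 hadj
      omega
    intro i hi j hj hadj
    rcases Nat.lt_trichotomy i j with h | h | h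
    · exact key i j h hj hadj
    · exfalso
      subst h
      obtain ⟨e, he⟩ := hadj
      exact G.loopless e (by rw [he]; exact Sym2.mk_isDiag_iff.mpr rfl)
    · obtain ⟨e, he⟩ := hadj
      rcases key j i h hi ⟨e, by rw [he, Sym2.eq_swap]⟩ with h1 | h1
      · exact Or.inr h1
      · exact Or.inl h1

theorem closedReg_three (hTRE : PartTRE) (hCLS : PartCLS) (hDEG : PartDEG) (hEVN : PartEVN)
    (hAND : PartAND) (hMOR : PartMOR) {Δ T μ g : ℕ} (hreg : Reg3 g μ T) :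
    ClosedReg Δ T μ g := by
  have hT : 1 ≤ T := by
    rcases hreg with ⟨-, h1⟩ | ⟨-, -, h1, -⟩ <;> omega
  have hg4 : 4 ≤ g := by
    rcases hreg with ⟨h1, -⟩ | ⟨h1, -, -, -⟩ <;> omega
  have hs : SizeOK Δ T μ g := by
    intro V E _ _ G hdeg hmul hgir l n y f h pr α β c hl hodd hln hTr hel hcl
    have hsz := size_le' hDEG hEVN hAND hMOR hreg hdeg hmul hgir hl hodd hln hTr hel hcl
    have hlg : g ≤ l := hgir l hl ⟨y, hTr.st.inj, fun i hi => ⟨f i, by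
      rw [mod_eq_nx hi, hTr.st.ed i hi]⟩⟩
    omega
  exact @closedReg_of_size @hTRE @hCLS Δ T μ g hT hs

end Pool.Agent.W998.KG
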