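import Pool.Agent.W998.KG.Stm3

set_option autoImplicit false

namespace Pool.Agent.W998.KG

open Pool.Agent.Results.MP_633d19_co.SmallDegree
open Pool.Agent.Results.MP_633d19_co.SmallDegree.MGraph

/-- No graph with 11 vertices, girth at least 5 and all degrees at least 3. -/
def PartMFA : Prop :=
  ∀ {V E : Type} {G : MGraph V E} {y : ℕ → V},
    (∀ i ≤ 10, ∀ j ≤ 10, y i = y j → i = j) →
    (∀ i ≤ 10, ∃ A : Finset ℕ, (∀ j ∈ A, j ≤ 10 ∧ ∃ e, G.ends e = s(y i, y j)) ∧ 3 ≤ A.card) →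
    (∀ l, 3 ≤ l → G.HasCycle l → 5 ≤ l) → False

/-- Girth 5, multiplicity 4: a closed tree with 7 vertices is not grown from a 5-cycle. -/
def PartMFB : Prop :=
  ∀ {V E : Type} [Finite V] [Finite E] {G : MGraph V E} {k Δ : ℕ}, k = Δ + 1 →
    (∀ u, G.degree u ≤ Δ) → (∀ u w, u ≠ w → G.mult u w ≤ 4) →
    (∀ l, 3 ≤ l → G.HasCycle l → 5 ≤ l) →
    ∀ {y : ℕ → V} {f h : ℕ → E} {pr : ℕ → ℕ} {α β : Fin k}
    {c : E → Option (Fin k)}, Tr G 5 6 y f h pr α β c →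
    Elem G 5 6 y α β c → Clsd G 6 y c → False

end Pool.Agent.W998.KG
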