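import Pool.Agent.W998.KG.Reg3
import Pool.Agent.W998.KG.Stm4

set_option autoImplicit false

namespace Pool.Agent.W998.KG

open Pool.Agent.Results.MP_633d19_co.SmallDegree
open Pool.Agent.Results.MP_633d19_co.SmallDegree.MGraph

/-- Girth 5, multiplicity 4. -/
theorem closedReg_four (hTRE : PartTRE) (hCLS : PartCLS) (hDEG : PartDEG) (hEVN : PartEVN)
    (hMOR : PartMOR) (hMFA : PartMFA) (hMFB : PartMFB) {Δ : ℕ} :
    ClosedReg Δ 1 4 5 := by
  have hs : SizeOK Δ 1 4 5 := by
    intro V E _ _ G hdeg hmul hgir l n y f h pr α β c hl hodd hln hTr hel hcl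
    have hlg : 5 ≤ l := hgir l hl ⟨y, hTr.st.inj, fun i hi => ⟨f i, by
      rw [mod_eq_nx hi, hTr.st.ed i hi]⟩⟩
    have he := hEVN hl hodd hln hTr hel hcl
    have hd := hDEG (k := Δ + 1) (T := 1) rfl le_rfl hdeg hmul hl hodd hln hTr hel hcl
    have hA3 := hd
    choose! A hA1 hA2 using hd
    obtain ⟨i0, hi0, hmin⟩ : ∃ i0 ≤ n, ∀ i ≤ n, (A i0).card ≤ (A i).card := by
      obtain ⟨i0, hi0, hm⟩ := Finset.exists_min_image (Finset.range (n + 1))
        (fun i => (A i).card) ⟨0, by simp⟩
      exact ⟨i0, by rw [Finset.mem_range] at hi0; omega,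
        fun i hi => hm i (by rw [Finset.mem_range]; omega)⟩
    have hM := (hMOR (G := G) (n := n) (d := (A i0).card) (y := y) hTr.inj
      (fun i hi => ⟨A i, hA1 i hi, hmin i hi⟩)).1 (fun l hl hc => hgir l hl hc)
    have h0 := hA2 i0 hi0
    have hn6 : n ≤ 6 := by
      by_contra hcon
      have h3 : 3 ≤ (A i0).card := by omega
      have h4 : (A i0).card < 4 := by
        by_contra h5
        have h6 : 4 * (A i0).card ≤ (A i0).card * (A i0).card :=
          Nat.mul_le_mul_right _ (by omega)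
        omega
      have h5 : (A i0).card = 3 := by omega
      rw [h5] at hM h0
      have hn : n = 10 := by omega
      subst hn
      exact hMFA (G := G) (y := y) hTr.inj
        (fun i hi => ⟨A i, hA1 i hi, by have := hmin i hi; omega⟩)
        (fun l hl hc => hgir l hl hc)
    have hl5 : ¬ (l = 5 ∧ n = 6) := by
      rintro ⟨rfl, rfl⟩
      exact hMFB rfl hdeg hmul hgir hTr hel hcl
    omega
  exact @closedReg_of_size @hTRE @hCLS Δ 1 4 5 le_rfl hs

end Pool.Agent.W998.KG
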