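import Pool.Agent.Results.MP_633d19_co.SmallDegree

set_option autoImplicit false

namespace Pool.Agent.W998.KG

open Pool.Agent.Results.MP_633d19_co.SmallDegree
open Pool.Agent.Results.MP_633d19_co.SmallDegree.MGraph

variable {V E : Type}

/-- Kierstead path `y 0, ..., y r` with edges `f i = y i y (i+1)`; `f 0` is the only uncoloured
edge and the colour of `f i` is missing at an earlier vertex. -/
structure KP (G : MGraph V E) {k : ℕ} (r : ℕ) (y : ℕ → V) (f : ℕ → E)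
    (c : E → Option (Fin k)) : Prop where
  pp : G.PP c
  inj : ∀ i ≤ r, ∀ j ≤ r, y i = y j → i = j
  ed : ∀ i < r, G.ends (f i) = s(y i, y (i + 1))
  none_iff : ∀ e, c e = none ↔ e = f 0
  col : ∀ i < r, 1 ≤ i → ∃ a, c (f i) = some a ∧ ∃ j < i, G.Miss c (y j) a

/-- Lollipop: the uncoloured odd cycle `y 0, ..., y (l-1)` of a `State`, followed by a tail
`y (l-1), y l, ..., y r` with edges `h i = y i y (i+1)` (`l - 1 ≤ i < r`), the colour of `h i`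
being missing at an earlier vertex. -/
structure Lol (G : MGraph V E) {k : ℕ} (l r : ℕ) (y : ℕ → V) (f h : ℕ → E) (α β : Fin k)
    (c : E → Option (Fin k)) : Prop where
  st : G.State l y f α β c
  inj : ∀ i ≤ r, ∀ j ≤ r, y i = y j → i = j
  ed : ∀ i < r, l ≤ i + 1 → G.ends (h i) = s(y i, y (i + 1))
  col : ∀ i < r, l ≤ i + 1 → ∃ a, c (h i) = some a ∧ ∃ j < i, G.Miss c (y j) a

/-- The edge of colour `a` at the vertex `y i` of the cycle `y 0, ..., y (l-1)` leaves the cycle. -/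
def Lv (G : MGraph V E) {k : ℕ} (l : ℕ) (y : ℕ → V) (c : E → Option (Fin k)) (a : Fin k)
    (i : ℕ) : Prop :=
  ∃ e, y i ∈ G.ends e ∧ c e = some a ∧ ∀ j < l, y j ∈ G.ends e → j = i

/-- The edge of colour `a` at the vertex `y i` of the cycle `y 0, ..., y (l-1)` goes to another
vertex of the cycle. -/
def In (G : MGraph V E) {k : ℕ} (l : ℕ) (y : ℕ → V) (c : E → Option (Fin k)) (a : Fin k)
    (i : ℕ) : Prop :=
  ∃ e, c e = some a ∧ ∃ j < l, j ≠ i ∧ G.ends e = s(y i, y j)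

/-- Kierstead's theorem. -/
def PartKIE : Prop :=
  ∀ {V E : Type} [Finite V] [Finite E] {G : MGraph V E} {k Δ : ℕ}, ¬ G.Colorable k →
    (∀ u, G.degree u ≤ Δ) → Δ + 1 ≤ k → ∀ {r : ℕ} {y : ℕ → V} {f : ℕ → E}
    {c : E → Option (Fin k)}, KP G r y f c → 1 ≤ r →
    ∀ i j, i < j → j ≤ r → ∀ a, G.Miss c (y i) a → G.Miss c (y j) a → False

/-- The vertices of a lollipop are elementary. -/
def PartLOL : Prop :=
  ∀ {V E : Type} [Finite V] [Finite E] {G : MGraph V E} {k Δ : ℕ}, ¬ G.Colorable k →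
    (∀ u, G.degree u ≤ Δ) → Δ + 1 ≤ k → ∀ {l r : ℕ} {y : ℕ → V} {f h : ℕ → E}
    {α β : Fin k} {c : E → Option (Fin k)}, 3 ≤ l → l % 2 = 1 → l ≤ r + 1 →
    Lol G l r y f h α β c →
    (∀ i j, i < j → j ≤ r → ∀ a, a ≠ α → a ≠ β → G.Miss c (y i) a → G.Miss c (y j) a → False) ∧
    (∀ j, l ≤ j → j ≤ r → ¬ G.Miss c (y j) α ∧ ¬ G.Miss c (y j) β)

/-- Counting at the last vertex of a lollipop. -/
def PartCNT : Prop :=
  ∀ {V E : Type} [Finite V] [Finite E] {G : MGraph V E} {k Δ T μ : ℕ}, k = Δ + T → 1 ≤ T →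
    (∀ u, G.degree u ≤ Δ) → (∀ u w, u ≠ w → G.mult u w ≤ μ) →
    ∀ {l r : ℕ} {y : ℕ → V} {f h : ℕ → E} {α β : Fin k} {c : E → Option (Fin k)},
    3 ≤ l → l % 2 = 1 → l ≤ r + 1 → Lol G l r y f h α β c →
    ((∀ i j, i < j → j ≤ r → ∀ a, a ≠ α → a ≠ β → G.Miss c (y i) a → G.Miss c (y j) a → False) ∧
      (∀ j, l ≤ j → j ≤ r → ¬ G.Miss c (y j) α ∧ ¬ G.Miss c (y j) β)) →
    (∀ e a, y r ∈ G.ends e → c e = some a → (∃ j < r, G.Miss c (y j) a) →
      ∃ i < r, G.ends e = s(y r, y i)) →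
    ∃ A : Finset ℕ, (∀ i ∈ A, i < r ∧ ∃ e, G.ends e = s(y r, y i)) ∧ r * T + 2 ≤ A.card * μ

/-- Neighbours of the last vertex of a path are far apart. -/
def PartGAP : Prop :=
  ∀ {V E : Type} {G : MGraph V E} {g r : ℕ}, 3 ≤ g → (∀ l, 3 ≤ l → G.HasCycle l → g ≤ l) →
    ∀ {y : ℕ → V}, (∀ i ≤ r, ∀ j ≤ r, y i = y j → i = j) →
    (∀ i < r, ∃ e, G.ends e = s(y i, y (i + 1))) →
    ∀ (A : Finset ℕ), (∀ i ∈ A, i < r ∧ ∃ e, G.ends e = s(y r, y i)) → A.Nonempty →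
    (A.card - 1) * (g - 2) + 1 ≤ r

/-- A chord from the end of a lollipop. -/
def PartGAQ : Prop :=
  ∀ {V E : Type} {G : MGraph V E} {g l r : ℕ}, 3 ≤ g → (∀ l, 3 ≤ l → G.HasCycle l → g ≤ l) →
    ∀ {y : ℕ → V}, (∀ i ≤ r, ∀ j ≤ r, y i = y j → i = j) →
    (∀ i < r, ∃ e, G.ends e = s(y i, y (i + 1))) → 3 ≤ l → l % 2 = 1 → l ≤ r →
    (∃ e, G.ends e = s(y (l - 1), y 0)) → ∀ (i : ℕ), i + 1 < r →
    (∃ e, G.ends e = s(y r, y i)) → g + l / 2 ≤ r + 1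

/-- The lollipop bound: arithmetic and maximality; there is no lollipop with a tail. -/
def PartNTL : Prop :=
  ∀ {V E : Type} [Finite V] [Finite E] {G : MGraph V E} {k Δ T μ g : ℕ}, k = Δ + T → 1 ≤ T →
    ¬ G.Colorable k → (∀ u, G.degree u ≤ Δ) → (∀ u w, u ≠ w → G.mult u w ≤ μ) → 4 ≤ g →
    (∀ l, 3 ≤ l → G.HasCycle l → g ≤ l) → 3 * μ ≤ (2 * g - 3) * T + 1 →
    ∀ {l r : ℕ} {y : ℕ → V} {f h : ℕ → E} {α β : Fin k} {c : E → Option (Fin k)},
    3 ≤ l → l % 2 = 1 → l ≤ r → Lol G l r y f h α β c → False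

/-- The cycle of a state is closed for missing colours. -/
def PartCLO : Prop :=
  ∀ {V E : Type} [Finite V] [Finite E] {G : MGraph V E} {k Δ T μ g : ℕ}, k = Δ + T → 1 ≤ T →
    ¬ G.Colorable k → (∀ u, G.degree u ≤ Δ) → (∀ u w, u ≠ w → G.mult u w ≤ μ) → 4 ≤ g →
    (∀ l, 3 ≤ l → G.HasCycle l → g ≤ l) → 3 * μ ≤ (2 * g - 3) * T + 1 →
    ∀ {l : ℕ} {y : ℕ → V} {f : ℕ → E} {α β : Fin k} {c : E → Option (Fin k)},
    3 ≤ l → l % 2 = 1 → G.State l y f α β c → ∀ a : Fin k, (∃ j < l, G.Miss c (y j) a) →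
    ∀ i < l, ¬ Lv G l y c a i

/-- The cycle of a state has no chords. -/
def PartCHD : Prop :=
  ∀ {V E : Type} [Finite V] [Finite E] {G : MGraph V E} {k Δ T μ g : ℕ}, k = Δ + T → 1 ≤ T →
    ¬ G.Colorable k → (∀ u, G.degree u ≤ Δ) → (∀ u w, u ≠ w → G.mult u w ≤ μ) → 4 ≤ g →
    (∀ l, 3 ≤ l → G.HasCycle l → g ≤ l) → 3 * μ ≤ (2 * g - 3) * T + 1 →
    ∀ {l : ℕ} {y : ℕ → V} {f : ℕ → E} {α β : Fin k} {c : E → Option (Fin k)},
    3 ≤ l → l % 2 = 1 → G.State l y f α β c →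
    ∀ i < l, ∀ j < l, (∃ e, G.ends e = s(y i, y j)) → j = nx l i ∨ i = nx l j

/-- Two involutions: an odd set of fixed points of the first one contains an element whose orbit
contains no other element of the set. -/
def PartPAR : Prop :=
  ∀ {V : Type} [Finite V] (s t : Equiv.Perm V), s * s = 1 → t * t = 1 → ∀ (L : Finset V),
    L.card % 2 = 1 → (∀ x ∈ L, s x = x) →
    ∃ x ∈ L, ∀ x' ∈ L, (∃ n : ℤ, x' = ((s * t) ^ n) x) → x' = x

/-- The number of leaving edges of a colour present at all vertices of the odd cycle is odd. -/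
def PartODD : Prop :=
  ∀ {V E : Type} [Finite V] [Finite E] {G : MGraph V E} {k l : ℕ} {y : ℕ → V} {f : ℕ → E}
    {α β : Fin k}, 3 ≤ l → l % 2 = 1 → ∀ {c : E → Option (Fin k)}, G.State l y f α β c →
    ∀ {δ : Fin k}, (∀ i < l, ¬ G.Miss c (y i) δ) →
    ∀ (L : Finset ℕ), (∀ i, i ∈ L ↔ i < l ∧ Lv G l y c δ i) → L.card % 2 = 1

/-- Exchange of two colours on a closed set of vertices, edges off the set unchanged. -/
def PartSWP : Prop :=
  ∀ {V E : Type} (G : MGraph V E) {k : ℕ} {c : E → Option (Fin k)}, G.PP c → ∀ (a b : Fin k)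
    (K : Set V),
    (∀ e u w, u ∈ G.ends e → w ∈ G.ends e → (c e = some a ∨ c e = some b) → u ∈ K → w ∈ K) →
    ∃ c' : E → Option (Fin k), G.PP c' ∧ (∀ e, c' e = none ↔ c e = none) ∧
      (∀ e x, x ≠ a → x ≠ b → (c' e = some x ↔ c e = some x)) ∧
      (∀ v ∈ K, ∀ x, G.Miss c v x → G.Miss c' v (Equiv.swap a b x)) ∧
      (∀ v, v ∉ K → ∀ x, G.Miss c v x → G.Miss c' v x) ∧
      (∀ e, (∀ u ∈ G.ends e, u ∉ K) → c' e = c e) ∧
      (∀ e u, u ∈ G.ends e → u ∈ K → c' e = (c e).map (Equiv.swap a b))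

/-- At most one edge of a colour present on the whole cycle leaves the cycle. -/
def PartEXI : Prop :=
  ∀ {V E : Type} [Finite V] [Finite E] {G : MGraph V E} {k l : ℕ} {y : ℕ → V} {f : ℕ → E}
    {α β : Fin k}, 3 ≤ l → l % 2 = 1 → ¬ G.Colorable k →
    (∀ c : E → Option (Fin k), G.State l y f α β c → ∀ a : Fin k,
      (∃ j < l, G.Miss c (y j) a) → ∀ i < l, ¬ Lv G l y c a i) →
    (∀ c : E → Option (Fin k), G.State l y f α β c → ∀ i < l, (G.ms c α β (y i)).Nonempty) →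
    ∀ {c : E → Option (Fin k)}, G.State l y f α β c → ∀ {δ : Fin k},
    (∀ i < l, ¬ G.Miss c (y i) δ) →
    ∀ i < l, ∀ j < l, Lv G l y c δ i → Lv G l y c δ j → i = j

/-- Every colour other than `α`, `β` has at least `l - 1` inner incidences. -/
def PartINN : Prop :=
  ∀ {V E : Type} [Finite V] [Finite E] {G : MGraph V E} {k l : ℕ} {y : ℕ → V} {f : ℕ → E}
    {α β : Fin k}, 3 ≤ l → l % 2 = 1 → ¬ G.Colorable k →
    (∀ c : E → Option (Fin k), G.State l y f α β c → ∀ a : Fin k,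
      (∃ j < l, G.Miss c (y j) a) → ∀ i < l, ¬ Lv G l y c a i) →
    (∀ c : E → Option (Fin k), G.State l y f α β c → ∀ i < l, (G.ms c α β (y i)).Nonempty) →
    ∀ {c : E → Option (Fin k)}, G.State l y f α β c → ∀ a : Fin k, a ≠ α → a ≠ β →
    ∃ A : Finset ℕ, (∀ i ∈ A, i < l ∧ In G l y c a i) ∧ l ≤ A.card + 1

/-- Double counting of the inner incidences. -/
def PartSUM : Prop :=
  ∀ {V E : Type} [Finite V] [Finite E] {G : MGraph V E} {k l μ : ℕ} {y : ℕ → V} {f : ℕ → E}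
    {α β : Fin k} {c : E → Option (Fin k)}, 3 ≤ l → G.State l y f α β c →
    (∀ u w, u ≠ w → G.mult u w ≤ μ) →
    (∀ i < l, ∀ j < l, (∃ e, G.ends e = s(y i, y j)) → j = nx l i ∨ i = nx l j) →
    (∀ a : Fin k, a ≠ α → a ≠ β →
      ∃ A : Finset ℕ, (∀ i ∈ A, i < l ∧ In G l y c a i) ∧ l ≤ A.card + 1) →
    (k - 2) * (l - 1) + 2 * l ≤ 2 * μ * l

/-- A non-colourable graph all but one edge of which can be coloured has a state. -/
def PartSTA : Prop :=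
  ∀ {V E : Type} [Finite V] [Finite E] (G : MGraph V E) {k Δ : ℕ}, Δ + 1 ≤ k →
    (∀ u, G.degree u ≤ Δ) → ¬ G.Colorable k → ∀ e0 : E, (G.del e0).Colorable k →
    ∃ (l : ℕ) (y : ℕ → V) (f : ℕ → E) (α β : Fin k) (c : E → Option (Fin k)),
      3 ≤ l ∧ l % 2 = 1 ∧ G.State l y f α β c

end Pool.Agent.W998.KG
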