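import Pool.Agent.W998.KG.Stm

set_option autoImplicit false

namespace Pool.Agent.W998.KG

open Pool.Agent.Results.MP_633d19_co.SmallDegree
open Pool.Agent.Results.MP_633d19_co.SmallDegree.MGraph

/-- The arithmetic condition. -/
def Cond (g μ T : ℕ) : Prop :=
  3 * μ ≤ (2 * g - 3) * T + 1 ∨
    (g % 2 = 0 ∧ 3 * μ ≤ (2 * g - 2) * T + 1 ∧ 4 * μ ≤ (3 * g - 5) * T + 1)

/-- Three neighbours at the end of a lollipop, even girth. -/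
def PartGAT : Prop :=
  ∀ {V E : Type} {G : MGraph V E} {g l r : ℕ}, 4 ≤ g → g % 2 = 0 →
    (∀ l, 3 ≤ l → G.HasCycle l → g ≤ l) →
    ∀ {y : ℕ → V}, (∀ i ≤ r, ∀ j ≤ r, y i = y j → i = j) →
    (∀ i < r, ∃ e, G.ends e = s(y i, y (i + 1))) → 3 ≤ l → l % 2 = 1 → l ≤ r →
    (∃ e, G.ends e = s(y (l - 1), y 0)) → ∀ (A : Finset ℕ),
    (∀ i ∈ A, i < r ∧ ∃ e, G.ends e = s(y r, y i)) → 3 ≤ A.card → 2 * g - 2 ≤ r

/-- There is no lollipop with a tail. -/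
def PartNTM : Prop :=
  ∀ {V E : Type} [Finite V] [Finite E] {G : MGraph V E} {k Δ T μ g : ℕ}, k = Δ + T → 1 ≤ T →
    ¬ G.Colorable k → (∀ u, G.degree u ≤ Δ) → (∀ u w, u ≠ w → G.mult u w ≤ μ) → 4 ≤ g →
    (∀ l, 3 ≤ l → G.HasCycle l → g ≤ l) → Cond g μ T →
    ∀ {l r : ℕ} {y : ℕ → V} {f h : ℕ → E} {α β : Fin k} {c : E → Option (Fin k)},
    3 ≤ l → l % 2 = 1 → l ≤ r → Lol G l r y f h α β c → False

/-- The cycle of a state is closed for missing colours. -/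
def PartCLP : Prop :=
  ∀ {V E : Type} [Finite V] [Finite E] {G : MGraph V E} {k Δ T μ g : ℕ}, k = Δ + T → 1 ≤ T →
    ¬ G.Colorable k → (∀ u, G.degree u ≤ Δ) → (∀ u w, u ≠ w → G.mult u w ≤ μ) → 4 ≤ g →
    (∀ l, 3 ≤ l → G.HasCycle l → g ≤ l) → Cond g μ T →
    ∀ {l : ℕ} {y : ℕ → V} {f : ℕ → E} {α β : Fin k} {c : E → Option (Fin k)},
    3 ≤ l → l % 2 = 1 → G.State l y f α β c → ∀ a : Fin k, (∃ j < l, G.Miss c (y j) a) →
    ∀ i < l, ¬ Lv G l y c a i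

/-- The cycle of a state has no chords. -/
def PartCHE : Prop :=
  ∀ {V E : Type} [Finite V] [Finite E] {G : MGraph V E} {k Δ T μ g : ℕ}, k = Δ + T → 1 ≤ T →
    ¬ G.Colorable k → (∀ u, G.degree u ≤ Δ) → (∀ u w, u ≠ w → G.mult u w ≤ μ) → 4 ≤ g →
    (∀ l, 3 ≤ l → G.HasCycle l → g ≤ l) → Cond g μ T →
    ∀ {l : ℕ} {y : ℕ → V} {f : ℕ → E} {α β : Fin k} {c : E → Option (Fin k)},
    3 ≤ l → l % 2 = 1 → G.State l y f α β c →
    ∀ i < l, ∀ j < l, (∃ e, G.ends e = s(y i, y j)) → j = nx l i ∨ i = nx l j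

end Pool.Agent.W998.KG
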